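import Mathlib
import Pool.Agent.H590.NL.Stm

/-!
# NL590 TN: the tangent inequality in one variable (task for helper590, MP_85210c_gt)
-/

set_option autoImplicit false

noncomputable section

open MeasureTheory Filter Topology Set
open scoped BigOperators ENNReal

namespace H612NL

/-- the integrals `∫ Z exp(-y s^p) (s^p)^k` -/
def Hk (p : ℝ) (Z : ℝ → ℝ) (k : ℕ) (y : ℝ) : ℝ :=
  ∫ s in Ioi (0 : ℝ), Z s * Real.exp (-(y * s ^ p)) * (s ^ p) ^ k

theorem pow_le {p : ℝ} (hp0 : 0 ≤ p) (hp2 : p ≤ 2) {s : ℝ} (hs : 0 < s) : s ^ p ≤ 1 + s ^ 2 := by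
  rcases le_total s 1 with h | h
  · have := Real.rpow_le_one hs.le h hp0
    nlinarith [sq_nonneg s]
  · have h1 : s ^ p ≤ s ^ (2:ℝ) := Real.rpow_le_rpow_of_exponent_le h hp2
    rw [Real.rpow_two] at h1
    linarith

theorem bnd {p c C : ℝ} {Z : ℝ → ℝ} (hp0 : 0 ≤ p) (hp2 : p ≤ 2) (hc : 0 < c)
    (hZ : ∀ s, 0 < Z s) (hb : ∀ s, Z s ≤ C * Real.exp (-(c * s ^ 2))) (k : ℕ) {y s : ℝ}
    (hy : -(c / 2) ≤ y) (hs : 0 < s) :
    ‖Z s * Real.exp (-(y * s ^ p)) * (s ^ p) ^ k‖ ≤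
      C * Real.exp (c / 2) * (s ^ (p * k) * Real.exp (-(c / 2) * s ^ 2)) := by
  have hsp : 0 < s ^ p := Real.rpow_pos_of_pos hs p
  have h1 : -(y * s ^ p) ≤ c / 2 * (1 + s ^ 2) := by
    have h2 := pow_le hp0 hp2 hs
    have h3 : -y * s ^ p ≤ c / 2 * s ^ p := mul_le_mul_of_nonneg_right (by linarith) hsp.le
    have h4 : c / 2 * s ^ p ≤ c / 2 * (1 + s ^ 2) := mul_le_mul_of_nonneg_left h2 (by linarith)
    linarith
  have e1 : (s ^ p) ^ k = s ^ (p * k) := by rw [Real.rpow_mul hs.le, Real.rpow_natCast]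
  have hZs := hZ s
  have hsk : 0 < s ^ (p * k) := Real.rpow_pos_of_pos hs _
  rw [Real.norm_of_nonneg (by positivity), e1]
  have h5 : Z s * Real.exp (-(y * s ^ p)) ≤
      C * Real.exp (-(c * s ^ 2)) * Real.exp (c / 2 * (1 + s ^ 2)) :=
    mul_le_mul (hb s) (Real.exp_le_exp.2 h1) (Real.exp_pos _).le (hZs.le.trans (hb s))
  have h6 : C * Real.exp (-(c * s ^ 2)) * Real.exp (c / 2 * (1 + s ^ 2)) =
      C * Real.exp (c / 2) * Real.exp (-(c / 2) * s ^ 2) := by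
    rw [mul_assoc, mul_assoc, ← Real.exp_add, ← Real.exp_add]
    congr 2
    ring
  calc Z s * Real.exp (-(y * s ^ p)) * s ^ (p * k)
      ≤ C * Real.exp (-(c * s ^ 2)) * Real.exp (c / 2 * (1 + s ^ 2)) * s ^ (p * k) :=
        mul_le_mul_of_nonneg_right h5 hsk.le
    _ = C * Real.exp (c / 2) * (s ^ (p * k) * Real.exp (-(c / 2) * s ^ 2)) := by
        rw [h6]
        ring

theorem dom {p c : ℝ} (hp0 : 0 ≤ p) (hc : 0 < c) (C : ℝ) (k : ℕ) :
    IntegrableOn (fun s : ℝ => C * Real.exp (c / 2) *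
      (s ^ (p * k) * Real.exp (-(c / 2) * s ^ 2))) (Ioi 0) := by
  have h0 : (-1 : ℝ) < p * k := by
    have : 0 ≤ p * k := by positivity
    linarith
  exact (integrableOn_rpow_mul_exp_neg_mul_sq (by positivity) h0).const_mul _

theorem meas {p : ℝ} {Z : ℝ → ℝ} (hp0 : 0 ≤ p) (hZc : Continuous Z) (k : ℕ) (y : ℝ) :
    AEStronglyMeasurable (fun s : ℝ => Z s * Real.exp (-(y * s ^ p)) * (s ^ p) ^ k)
      (volume.restrict (Ioi 0)) := by
  have h1 : Continuous (fun s : ℝ => s ^ p) :=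
    Continuous.rpow_const continuous_id (fun _ => Or.inr hp0)
  have h2 : Continuous (fun s : ℝ => Z s * Real.exp (-(y * s ^ p)) * (s ^ p) ^ k) := by
    fun_prop
  exact h2.aestronglyMeasurable

theorem integ {p c C : ℝ} {Z : ℝ → ℝ} (hp0 : 0 ≤ p) (hp2 : p ≤ 2) (hc : 0 < c)
    (hZc : Continuous Z) (hZ : ∀ s, 0 < Z s) (hb : ∀ s, Z s ≤ C * Real.exp (-(c * s ^ 2)))
    (k : ℕ) {y : ℝ} (hy : -(c / 2) ≤ y) :
    IntegrableOn (fun s : ℝ => Z s * Real.exp (-(y * s ^ p)) * (s ^ p) ^ k) (Ioi 0) := by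
  refine Integrable.mono' (dom hp0 hc C k) (meas hp0 hZc k y) ?_
  exact (ae_restrict_iff' measurableSet_Ioi).2 (ae_of_all _ fun s hs =>
    bnd hp0 hp2 hc hZ hb k hy hs)

theorem der {p c C : ℝ} {Z : ℝ → ℝ} (hp0 : 0 ≤ p) (hp2 : p ≤ 2) (hc : 0 < c)
    (hZc : Continuous Z) (hZ : ∀ s, 0 < Z s) (hb : ∀ s, Z s ≤ C * Real.exp (-(c * s ^ 2)))
    (k : ℕ) {y : ℝ} (hy : -(c / 2) < y) :
    HasDerivAt (Hk p Z k) (-Hk p Z (k + 1) y) y := by
  have h := (hasDerivAt_integral_of_dominated_loc_of_deriv_le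
    (μ := volume.restrict (Ioi (0 : ℝ))) (s := Ioi (-(c / 2))) (x₀ := y)
    (F := fun (y s : ℝ) => Z s * Real.exp (-(y * s ^ p)) * (s ^ p) ^ k)
    (F' := fun (y s : ℝ) => -(Z s * Real.exp (-(y * s ^ p)) * (s ^ p) ^ (k + 1)))
    (bound := fun s : ℝ => C * Real.exp (c / 2) *
      (s ^ (p * (k + 1 : ℕ)) * Real.exp (-(c / 2) * s ^ 2)))
    (Ioi_mem_nhds hy) (Filter.Eventually.of_forall fun y => meas hp0 hZc k y)
    (integ hp0 hp2 hc hZc hZ hb k hy.le) (meas hp0 hZc (k + 1) y).neg ?_ (dom hp0 hc C (k + 1))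
    ?_).2
  · rw [integral_neg] at h
    exact h
  · exact (ae_restrict_iff' measurableSet_Ioi).2 (ae_of_all _ fun s hs x hx => by
      rw [norm_neg]
      exact bnd hp0 hp2 hc hZ hb (k + 1) (le_of_lt hx) hs)
  · refine ae_of_all _ fun s x _ => ?_
    have h1 : HasDerivAt (fun x : ℝ => -(x * s ^ p)) (-(1 * s ^ p)) x :=
      ((hasDerivAt_id x).mul_const _).neg
    have h2 := ((h1.exp).const_mul (Z s)).mul_const ((s ^ p) ^ k)
    refine h2.congr_deriv ?_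
    ring

theorem pos {p c C : ℝ} {Z : ℝ → ℝ} (hp0 : 0 ≤ p) (hp2 : p ≤ 2) (hc : 0 < c)
    (hZc : Continuous Z) (hZ : ∀ s, 0 < Z s) (hb : ∀ s, Z s ≤ C * Real.exp (-(c * s ^ 2)))
    (k : ℕ) {y : ℝ} (hy : -(c / 2) ≤ y) : 0 < Hk p Z k y := by
  have hpos : ∀ s ∈ Ioi (0 : ℝ), 0 < Z s * Real.exp (-(y * s ^ p)) * (s ^ p) ^ k := by
    intro s hs
    have := hZ s
    have h1 : 0 < s ^ p := Real.rpow_pos_of_pos hs p
    positivity
  unfold Hk
  rw [setIntegral_pos_iff_support_of_nonneg_ae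
    ((ae_restrict_iff' measurableSet_Ioi).2 (ae_of_all _ fun s hs => (hpos s hs).le))
    (integ hp0 hp2 hc hZc hZ hb k hy)]
  have h2 : Ioi (0 : ℝ) ⊆ Function.support
      (fun s : ℝ => Z s * Real.exp (-(y * s ^ p)) * (s ^ p) ^ k) ∩ Ioi 0 :=
    fun s hs => ⟨(hpos s hs).ne', hs⟩
  refine lt_of_lt_of_le ?_ (measure_mono h2)
  rw [Real.volume_Ioi]
  exact ENNReal.zero_lt_top

theorem TN : H590NL.S_TN := by
  intro p Z hp1 hp2 hZc hZ ⟨C, c, hc, hb⟩ hyp y hy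
  have hp0 : 0 < p := by linarith
  have e0 : ∀ y : ℝ, ∫ s in Ioi (0 : ℝ), Z s * Real.exp (-(y * s ^ p)) = Hk p Z 0 y := by
    intro y
    unfold Hk
    simp only [pow_zero, mul_one]
  have e1 : ∀ y : ℝ, ∫ s in Ioi (0 : ℝ), Z s * Real.exp (-(y * s ^ p)) * s ^ p =
      Hk p Z 1 y := by
    intro y
    unfold Hk
    simp only [pow_one]
  have e2 : ∀ y : ℝ, ∫ s in Ioi (0 : ℝ), Z s * Real.exp (-(y * s ^ p)) * (s ^ p) ^ 2 =
      Hk p Z 2 y := fun y => rfl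
  have e3 : ∫ s in Ioi (0 : ℝ), Z s = Hk p Z 0 0 := by
    rw [← e0]
    simp
  have e4 : ∫ s in Ioi (0 : ℝ), Z s * s ^ p = Hk p Z 1 0 := by
    rw [← e1]
    simp
  rw [e0, e3, e4]
  have hyp' : ∀ y : ℝ, 0 ≤ y → Hk p Z 0 y * Hk p Z 2 y ≤ (p + 1) * Hk p Z 1 y ^ 2 := by
    intro y hy
    have := hyp y hy
    rwa [e0, e1, e2] at this
  have hdom : ∀ y : ℝ, 0 ≤ y → -(c / 2) < y := fun y hy => by linarith
  have dH : ∀ (k : ℕ) (y : ℝ), 0 ≤ y → HasDerivAt (Hk p Z k) (-Hk p Z (k + 1) y) y :=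
    fun k y hy => der hp0.le hp2.le hc hZc hZ hb k (hdom y hy)
  have pH : ∀ (k : ℕ) (y : ℝ), 0 ≤ y → 0 < Hk p Z k y :=
    fun k y hy => pos hp0.le hp2.le hc hZc hZ hb k (hdom y hy).le
  -- the function h = H^(-p) and its derivative
  have d1 : ∀ y : ℝ, 0 ≤ y → HasDerivAt (fun y => Hk p Z 0 y ^ (-p))
      (p * Hk p Z 1 y * Hk p Z 0 y ^ (-p - 1)) y := by
    intro y hy
    have h := (dH 0 y hy).rpow_const (p := -p) (Or.inl (pH 0 y hy).ne')
    refine h.congr_deriv ?_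
    ring
  have d2 : ∀ y : ℝ, 0 ≤ y → HasDerivAt (fun y => p * Hk p Z 1 y * Hk p Z 0 y ^ (-p - 1))
      (p * Hk p Z 0 y ^ (-p - 2) * ((p + 1) * Hk p Z 1 y ^ 2 - Hk p Z 0 y * Hk p Z 2 y)) y := by
    intro y hy
    have h := (((dH 1 y hy).const_mul p)).mul
      ((dH 0 y hy).rpow_const (p := -p - 1) (Or.inl (pH 0 y hy).ne'))
    refine h.congr_deriv ?_
    have e : Hk p Z 0 y ^ (-p - 1) = Hk p Z 0 y ^ (-p - 2) * Hk p Z 0 y := by
      rw [← Real.rpow_add_one (pH 0 y hy).ne']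
      congr 1
      ring
    have e' : (-p - 1 - 1 : ℝ) = -p - 2 := by ring
    rw [e', e]
    simp only [zero_add]
    ring
  have m2 : MonotoneOn (fun y => p * Hk p Z 1 y * Hk p Z 0 y ^ (-p - 1)) (Ici 0) := by
    refine monotoneOn_of_deriv_nonneg (convex_Ici 0)
      (fun y hy => (d2 y hy).continuousAt.continuousWithinAt) (fun y hy => ?_) (fun y hy => ?_)
    · rw [interior_Ici] at hy
      exact (d2 y (le_of_lt hy)).differentiableAt.differentiableWithinAt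
    · rw [interior_Ici] at hy
      rw [(d2 y (le_of_lt hy)).deriv]
      have h1 := hyp' y (le_of_lt hy)
      have h2 : 0 < Hk p Z 0 y ^ (-p - 2) := Real.rpow_pos_of_pos (pH 0 y (le_of_lt hy)) _
      refine mul_nonneg (by positivity) (by linarith)
  have m1 : MonotoneOn (fun y => Hk p Z 0 y ^ (-p) -
      y * (p * Hk p Z 1 0 * Hk p Z 0 0 ^ (-p - 1))) (Ici 0) := by
    have d3 : ∀ y : ℝ, 0 ≤ y → HasDerivAt (fun y => Hk p Z 0 y ^ (-p) -
        y * (p * Hk p Z 1 0 * Hk p Z 0 0 ^ (-p - 1)))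
        (p * Hk p Z 1 y * Hk p Z 0 y ^ (-p - 1) -
          1 * (p * Hk p Z 1 0 * Hk p Z 0 0 ^ (-p - 1))) y :=
      fun y hy => (d1 y hy).sub ((hasDerivAt_id y).mul_const _)
    refine monotoneOn_of_deriv_nonneg (convex_Ici 0)
      (fun y hy => (d3 y hy).continuousAt.continuousWithinAt) (fun y hy => ?_) (fun y hy => ?_)
    · rw [interior_Ici] at hy
      exact (d3 y (le_of_lt hy)).differentiableAt.differentiableWithinAt
    · rw [interior_Ici] at hy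
      rw [(d3 y (le_of_lt hy)).deriv]
      have := m2 (mem_Ici.2 le_rfl) (mem_Ici.2 (le_of_lt hy)) (le_of_lt hy)
      simp only at this
      linarith
  have key := m1 (mem_Ici.2 le_rfl) (mem_Ici.2 hy) hy
  simp only [zero_mul, sub_zero] at key
  have hH0 := pH 0 0 le_rfl
  have hH1 := pH 1 0 le_rfl
  have hHy := pH 0 y hy
  have hT : 0 < 1 + p * (Hk p Z 1 0 / Hk p Z 0 0) * y := by positivity
  have key2 : Hk p Z 0 0 ^ (-p) * (1 + p * (Hk p Z 1 0 / Hk p Z 0 0) * y) ≤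
      Hk p Z 0 y ^ (-p) := by
    have e : Hk p Z 0 0 ^ (-p - 1) = Hk p Z 0 0 ^ (-p) / Hk p Z 0 0 := by
      rw [Real.rpow_sub_one hH0.ne']
    rw [e] at key
    have e' : Hk p Z 0 0 ^ (-p) * (1 + p * (Hk p Z 1 0 / Hk p Z 0 0) * y) =
        Hk p Z 0 0 ^ (-p) + y * (p * Hk p Z 1 0 * (Hk p Z 0 0 ^ (-p) / Hk p Z 0 0)) := by
      field_simp
    rw [e']
    linarith
  have hz : -(1 / p) ≤ 0 := by
    have : 0 < 1 / p := by positivity
    linarith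
  have key3 := Real.rpow_le_rpow_of_nonpos (by positivity) key2 hz
  rw [Real.mul_rpow (by positivity) hT.le, ← Real.rpow_mul hH0.le, ← Real.rpow_mul hHy.le] at key3
  have e5 : -p * -(1 / p) = 1 := by
    field_simp
  rw [e5, Real.rpow_one, Real.rpow_one] at key3
  exact key3

end H612NL
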